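import Pool.Agent.MP_aef39a_lc.Basic

-- part MP_aef39a_lc.Glue
section

/-! Gluing a coloured gadget into one state of an automaton. -/

namespace Pool.Agent.MP_aef39a_lc

open Finset

section
variable {Q A K E G : Type} [DecidableEq Q]

def emb (p0 : Q) : K ⊕ E → (Q × K) ⊕ E
  | Sum.inl k => Sum.inl (p0, k)
  | Sum.inr e => Sum.inr e

def base (p0 : Q) : (Q × K) ⊕ E → Q
  | Sum.inl x => x.1
  | Sum.inr _ => p0

def fib : (Q × K) ⊕ E → K ⊕ E
  | Sum.inl x => Sum.inl x.2
  | Sum.inr e => Sum.inr e

def col (χ : E → K) : K ⊕ E → K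
  | Sum.inl k => k
  | Sum.inr e => χ e

def glue (δ : Q → A → Q) (p0 : Q) (χ : E → K) (γ : K ⊕ E → G → K ⊕ E)
    (x : (Q × K) ⊕ E) : A ⊕ G → (Q × K) ⊕ E
  | Sum.inl a => Sum.inl (δ (base p0 x) a, col χ (fib x))
  | Sum.inr g => if base p0 x = p0 then emb p0 (γ (fib x) g) else x

omit [DecidableEq Q] in
@[simp] theorem base_emb (p0 : Q) (y : K ⊕ E) : base p0 (emb p0 y) = p0 := by
  cases y <;> rfl

omit [DecidableEq Q] in
@[simp] theorem fib_emb (p0 : Q) (y : K ⊕ E) : fib (emb p0 y) = y := by
  cases y <;> rfl

omit [DecidableEq Q] in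
theorem emb_fib (p0 : Q) (x : (Q × K) ⊕ E) (h : base p0 x = p0) : emb p0 (fib x) = x := by
  rcases x with ⟨q, k⟩ | e
  · simp only [base] at h; subst h; rfl
  · rfl

variable (δ : Q → A → Q) (p0 : Q) (χ : E → K) (γ : K ⊕ E → G → K ⊕ E)

theorem base_inr (x : (Q × K) ⊕ E) (g : G) : base p0 (glue δ p0 χ γ x (Sum.inr g)) = base p0 x := by
  simp only [glue]
  split_ifs with h
  · rw [base_emb, h]
  · rfl

theorem base_act (u : List (A ⊕ G)) : ∀ x : (Q × K) ⊕ E,
    base p0 (act (glue δ p0 χ γ) x u) = act δ (base p0 x) (u.filterMap Sum.getLeft?) := by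
  induction u with
  | nil => intro x; rfl
  | cons a u ih =>
    intro x
    rcases a with a | g
    · rw [act_cons, ih]; rfl
    · rw [act_cons, ih, base_inr]; rfl

theorem act_inl (u : List A) : ∀ (q : Q) (k : K),
    act (glue δ p0 χ γ) (Sum.inl (q, k)) (u.map Sum.inl) = Sum.inl (act δ q u, k) := by
  induction u with
  | nil => intro q k; rfl
  | cons a u ih => intro q k; exact ih _ _

theorem act_inr (v : List G) : ∀ y : K ⊕ E,
    act (glue δ p0 χ γ) (emb p0 y) (v.map Sum.inr) = emb p0 (act γ y v) := by
  induction v with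
  | nil => intro y; rfl
  | cons g v ih =>
    intro y
    rw [List.map_cons, act_cons, act_cons, ← ih]
    simp [glue]

theorem length_split (u : List (A ⊕ G)) :
    u.length = (u.filterMap Sum.getLeft?).length + (u.filterMap Sum.getRight?).length := by
  induction u with
  | nil => rfl
  | cons a u ih => rcases a with a | g <;> simp [ih] <;> omega

theorem potential [DecidableEq K] [DecidableEq E] (ψ : Finset (K ⊕ E) → ℤ)
    (hρ : ∀ X, ψ X ≤ ψ (X.image fun y => Sum.inl (col χ y)))
    (hg : ∀ X g, ψ X ≤ ψ (X.image fun y => γ y g) + 1) (u : List (A ⊕ G)) :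
    ∀ (X : Finset ((Q × K) ⊕ E)) (q : Q), (∀ x ∈ X, base p0 x = q) →
      ψ (X.image fib) ≤ ψ ((X.image fun x => act (glue δ p0 χ γ) x u).image fib) +
        (u.filterMap Sum.getRight?).length := by
  induction u with
  | nil => intro X q _; simp
  | cons a u ih =>
    intro X q hX
    have e0 : (X.image fun x => act (glue δ p0 χ γ) x (a :: u)) =
        (X.image fun x => glue δ p0 χ γ x a).image fun x => act (glue δ p0 χ γ) x u := by
      rw [image_image]; rfl
    rw [e0]
    rcases a with a | g
    · have h1 := ih (X.image fun x => glue δ p0 χ γ x (Sum.inl a)) (δ q a) (by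
        intro x hx
        obtain ⟨x', hx', rfl⟩ := mem_image.mp hx
        rw [← hX x' hx']; rfl)
      have h2 := hρ (X.image fib)
      have e : (X.image fun x => glue δ p0 χ γ x (Sum.inl a)).image fib =
          (X.image fib).image fun y => Sum.inl (col χ y) := by
        rw [image_image, image_image]; rfl
      rw [e] at h1
      simp only [List.filterMap_cons, Sum.getRight?_inl]
      linarith
    · have h1 := ih (X.image fun x => glue δ p0 χ γ x (Sum.inr g)) q (by
        intro x hx
        obtain ⟨x', hx', rfl⟩ := mem_image.mp hx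
        rw [base_inr, hX x' hx'])
      simp only [List.filterMap_cons, Sum.getRight?_inr, List.length_cons]
      push_cast
      by_cases hq : q = p0
      · have e : (X.image fun x => glue δ p0 χ γ x (Sum.inr g)).image fib =
            (X.image fib).image fun y => γ y g := by
          rw [image_image, image_image]
          apply image_congr
          intro x hx
          simp [glue, hX x hx, hq]
        rw [e] at h1
        have h2 := hg (X.image fib) g
        linarith
      · have e : (X.image fun x => glue δ p0 χ γ x (Sum.inr g)) = X := by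
          conv_rhs => rw [← image_id (s := X)]
          apply image_congr
          intro x hx
          simp [glue, hX x hx, hq]
        rw [e] at h1 ⊢
        linarith

/-- the reset threshold of the glued automaton -/
theorem glue_least [DecidableEq K] [DecidableEq E] [Fintype K] [Nonempty K]
    (ψ : Finset (K ⊕ E) → ℤ)
    (hρ : ∀ X, ψ X ≤ ψ (X.image fun y => Sum.inl (col χ y)))
    (hg : ∀ X g, ψ X ≤ ψ (X.image fun y => γ y g) + 1)
    (t : ℕ) (ht : ∀ y, ψ {y} + t ≤ ψ (univ.image Sum.inl))
    (v : List G) (hv : v.length = t) (hv' : ∀ k k', act γ (Sum.inl k) v = act γ (Sum.inl k') v)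
    (w : List A) (hw0 : w ≠ []) (hw : ∀ q, act δ q w = p0)
    (hmin : ∀ u, IsReset δ u → w.length ≤ u.length) :
    IsLeast {k : ℕ | ∃ u : List (A ⊕ G), IsReset (glue δ p0 χ γ) u ∧ u.length = k}
      (w.length + t) := by
  constructor
  · refine ⟨w.map Sum.inl ++ v.map Sum.inr, ?_, by simp [hv]⟩
    obtain ⟨a, w, rfl⟩ := List.exists_cons_of_ne_nil hw0
    have key : ∀ x, ∃ k, act (glue δ p0 χ γ) x ((a :: w).map Sum.inl) = emb p0 (Sum.inl k) := by
      intro x
      refine ⟨col χ (fib x), ?_⟩
      have := hw (base p0 x)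
      rw [act_cons] at this
      rw [List.map_cons, act_cons]
      simp only [glue]
      rw [act_inl, this]
      rfl
    intro x y
    obtain ⟨k, hk⟩ := key x
    obtain ⟨k', hk'⟩ := key y
    rw [act_append, act_append, hk, hk', act_inr, act_inr, hv' k k']
  · rintro k ⟨u, hu, rfl⟩
    obtain ⟨k0⟩ := ‹Nonempty K›
    have h1 : w.length ≤ (u.filterMap Sum.getLeft?).length := by
      apply hmin
      intro p q
      have a1 := base_act δ p0 χ γ u (Sum.inl (p, k0))
      have a2 := base_act δ p0 χ γ u (Sum.inl (q, k0))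
      rw [hu _ (Sum.inl (q, k0)), a2] at a1
      exact a1.symm
    have h2 := potential δ p0 χ γ ψ hρ hg u (univ.image fun k => Sum.inl (p0, k)) p0 (by
      intro x hx
      obtain ⟨k, -, rfl⟩ := mem_image.mp hx
      rfl)
    have e1 : (univ.image fun k : K => (Sum.inl (p0, k) : (Q × K) ⊕ E)).image fib =
        univ.image Sum.inl := by
      rw [image_image]; rfl
    have e2 : ((univ.image fun k : K => (Sum.inl (p0, k) : (Q × K) ⊕ E)).image
        fun x => act (glue δ p0 χ γ) x u) = {act (glue δ p0 χ γ) (Sum.inl (p0, k0)) u} := by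
      ext x
      simp only [mem_image, mem_univ, true_and, exists_exists_eq_and, mem_singleton]
      exact ⟨fun ⟨k, hk⟩ => by rw [← hk]; exact hu _ _, fun h => ⟨k0, h.symm⟩⟩
    rw [e1, e2, image_singleton] at h2
    have h3 := ht (fib (act (glue δ p0 χ γ) (Sum.inl (p0, k0)) u))
    have h4 := length_split u
    omega

theorem glue_sc (hδ : StronglyConnected δ) (hγ : StronglyConnected γ) :
    StronglyConnected (glue δ p0 χ γ) := by
  have h1 : ∀ x, ∃ y u, act (glue δ p0 χ γ) x u = emb p0 y := by
    rintro (⟨q, k⟩ | e)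
    · obtain ⟨u, hu⟩ := hδ q p0
      exact ⟨Sum.inl k, u.map Sum.inl, by rw [act_inl, hu]; rfl⟩
    · exact ⟨Sum.inr e, [], rfl⟩
  have h2 : ∀ x, ∃ y u, act (glue δ p0 χ γ) (emb p0 y) u = x := by
    rintro (⟨q, k⟩ | e)
    · obtain ⟨u, hu⟩ := hδ p0 q
      exact ⟨Sum.inl k, u.map Sum.inl, by rw [← hu]; exact act_inl δ p0 χ γ u p0 k⟩
    · exact ⟨Sum.inr e, [], rfl⟩
  intro x x'
  obtain ⟨y, u, hu⟩ := h1 x
  obtain ⟨y', u', hu'⟩ := h2 x'
  obtain ⟨v, hv⟩ := hγ y y'
  exact ⟨u ++ v.map Sum.inr ++ u', by rw [act_append, act_append, hu, act_inr, hv, hu']⟩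

theorem glue_not_simple (q q' : Q) (hq : q ≠ q') (k k' : K) (hk : k ≠ k') :
    ¬ Simple (glue δ p0 χ γ) := by
  intro h
  rcases h (Setoid.ker (base p0)) (by
    intro x y a hxy
    have hxy' : base p0 x = base p0 y := hxy
    rcases a with a | g
    · show δ (base p0 x) a = δ (base p0 y) a
      rw [hxy']
    · show base p0 _ = base p0 _
      rw [base_inr, base_inr, hxy']) with h | h
  · have := (h (Sum.inl (q, k)) (Sum.inl (q, k'))).mp rfl
    simp [hk] at this
  · exact hq (h (Sum.inl (q, k)) (Sum.inl (q', k)))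

end

end Pool.Agent.MP_aef39a_lc

end

-- part MP_aef39a_lc.Gadget
section

/-! The path gadget. Colours: `none` root, `some none` path, `some (some i)` waiting. -/

namespace Pool.Agent.MP_aef39a_lc

open Finset

abbrev GK (c : ℕ) := Option (Option (Fin c))
abbrev GE (l pad : ℕ) := Fin l ⊕ Fin pad
abbrev GG (c pad : ℕ) := Fin pad ⊕ GK c

variable {c l pad : ℕ}

def gχ : GE l pad → GK c
  | Sum.inl _ => some none
  | Sum.inr _ => none

def rem : GK c ⊕ GE l pad → ℕ
  | Sum.inl (some none) => l + 1
  | Sum.inr (Sum.inl j) => j + 1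
  | _ => 0

def node : ℕ → GK c ⊕ GE l pad
  | 0 => Sum.inl none
  | j + 1 => if h : j < l then Sum.inr (Sum.inl ⟨j, h⟩) else Sum.inl (some none)

def gγ (y : GK c ⊕ GE l pad) : GG c pad → GK c ⊕ GE l pad
  | Sum.inl j => if y = Sum.inl none then Sum.inr (Sum.inr j) else y
  | Sum.inr k => if k = some none then (if col gχ y = some none then node (rem y - 1) else y)
      else if col gχ y = some none then Sum.inl k
      else if col gχ y = k then Sum.inl (some none) else y

theorem rem_le (y : GK c ⊕ GE l pad) : rem y ≤ l + 1 := by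
  rcases y with (_ | _ | i) | j | j <;> simp [rem]

theorem rem_pos_iff (y : GK c ⊕ GE l pad) : 0 < rem y ↔ col gχ y = some none := by
  rcases y with (_ | _ | i) | j | j <;> simp [rem, col, gχ]

theorem rem_node (j : ℕ) (hj : j ≤ l + 1) : rem (node j : GK c ⊕ GE l pad) = j := by
  rcases j with _ | j
  · rfl
  · simp only [node]
    split_ifs with h
    · rfl
    · simp only [rem]; omega

theorem node_rem (y : GK c ⊕ GE l pad) (h : col gχ y = some none) : node (rem y) = y := by
  rcases y with (_ | _ | i) | j | j <;> simp [rem, col, gχ, node] at h ⊢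

theorem col_node (j : ℕ) :
    col gχ (node j : GK c ⊕ GE l pad) = if j = 0 then none else some none := by
  rcases j with _ | j
  · rfl
  · rw [if_neg (Nat.succ_ne_zero j)]
    simp only [node]
    split_ifs <;> rfl

theorem rem_adv (y : GK c ⊕ GE l pad) : rem (gγ y (Sum.inr (some none))) = rem y - 1 := by
  simp only [gγ, if_true]
  split_ifs with h
  · exact rem_node _ (by have := rem_le y; omega)
  · have := (rem_pos_iff y).not.mpr h
    omega

theorem col_adv (y : GK c ⊕ GE l pad) :
    col gχ (gγ y (Sum.inr (some none))) = if rem y = 1 then none else col gχ y := by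
  simp only [gγ, if_true]
  by_cases h : col gχ y = some none
  · have := (rem_pos_iff y).mpr h
    rw [if_pos h, col_node, h]
    split_ifs <;> first | rfl | omega
  · have := (rem_pos_iff y).not.mpr h
    rw [if_neg h, if_neg (by omega)]

theorem col_swap (y : GK c ⊕ GE l pad) (k : GK c) (hk : k ≠ some none) :
    col gχ (gγ y (Sum.inr k)) = Equiv.swap (some none) k (col gχ y) := by
  simp only [gγ, if_neg hk]
  split_ifs with h1 h2
  · rw [h1, Equiv.swap_apply_left]; rfl
  · rw [h2, Equiv.swap_apply_right]; rfl
  · rw [Equiv.swap_apply_of_ne_of_ne h1 h2]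

theorem rem_swap (y : GK c ⊕ GE l pad) (k : GK c) (hk : k ≠ some none) :
    rem (gγ y (Sum.inr k)) = 0 ∨ rem (gγ y (Sum.inr k)) = l + 1 := by
  simp only [gγ, if_neg hk]
  split_ifs with h1 h2
  · left
    rcases k with _ | _ | i
    · rfl
    · exact absurd rfl hk
    · rfl
  · right; rfl
  · left
    have := (rem_pos_iff y).not.mpr h1
    omega

/-- the potential -/
def gψ (X : Finset (GK c ⊕ GE l pad)) : ℤ :=
  ((X.image (col gχ)).card : ℤ) * (l + 2) -
    if none ∈ X.image (col gχ) ∧ 0 < X.sup rem then (l + 2 : ℤ) - (X.sup rem : ℕ) else 0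

theorem sup_rem_le (X : Finset (GK c ⊕ GE l pad)) : X.sup rem ≤ l + 1 :=
  Finset.sup_le fun y _ => rem_le y

theorem sup_cases (X : Finset (GK c ⊕ GE l pad)) (h : ∀ y ∈ X, rem y = 0 ∨ rem y = l + 1) :
    X.sup rem = 0 ∨ X.sup rem = l + 1 := by
  by_cases h1 : ∃ y ∈ X, rem y = l + 1
  · obtain ⟨y, hy, hy'⟩ := h1
    right
    exact le_antisymm (sup_rem_le X) (hy' ▸ le_sup (f := rem) hy)
  · left
    push Not at h1
    exact Nat.le_zero.mp (Finset.sup_le fun y hy => by
      rcases h y hy with h | h
      · omega
      · exact absurd h (h1 y hy))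

theorem sup_pos_iff (X : Finset (GK c ⊕ GE l pad)) :
    0 < X.sup rem ↔ some none ∈ X.image (col gχ) := by
  rw [show (0 : ℕ) = ⊥ from rfl, Finset.lt_sup_iff, mem_image]
  exact exists_congr fun y => and_congr_right fun _ => rem_pos_iff y

theorem gψ_reset (X : Finset (GK c ⊕ GE l pad)) :
    gψ X ≤ gψ (X.image fun y => (Sum.inl (col gχ y) : GK c ⊕ GE l pad)) := by
  have e : (X.image fun y => (Sum.inl (col gχ y) : GK c ⊕ GE l pad)).image (col gχ) =
      X.image (col gχ) := by
    rw [image_image]; rfl
  have h1 := sup_cases (X.image fun y => (Sum.inl (col gχ y) : GK c ⊕ GE l pad)) (by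
    intro y hy
    obtain ⟨x, -, rfl⟩ := mem_image.mp hy
    rcases col gχ x with _ | _ | i <;> simp [rem])
  have h2 := sup_pos_iff (X.image fun y => (Sum.inl (col gχ y) : GK c ⊕ GE l pad))
  rw [e, ← sup_pos_iff] at h2
  have h3 := sup_rem_le X
  simp only [gψ, e]
  split_ifs <;> first | omega | tauto

theorem gψ_step (X : Finset (GK c ⊕ GE l pad)) (g : GG c pad) :
    gψ X ≤ gψ (X.image fun y => gγ y g) + 1 := by
  have h3 := sup_rem_le X
  rcases g with j | k
  · have e : (X.image fun y => gγ y (Sum.inl j)).image (col gχ) = X.image (col gχ) := by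
      rw [image_image]
      apply image_congr
      intro y _
      simp only [Function.comp, gγ]
      split_ifs with h
      · rw [h]; rfl
      · rfl
    have e' : (X.image fun y => gγ y (Sum.inl j)).sup rem = X.sup rem := by
      rw [sup_image]
      apply sup_congr rfl
      intro y _
      simp only [Function.comp, gγ]
      split_ifs with h
      · rw [h]; rfl
      · rfl
    simp only [gψ, e, e']
    omega
  · by_cases hk : k = some none
    · subst hk
      set X' := X.image fun y => gγ y (Sum.inr (some none)) with hX'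
      have e' : X'.sup rem = X.sup rem - 1 := by
        rw [hX', sup_image]
        have := Finset.apply_sup_eq_sup_comp (s := X) (f := rem) (fun a : ℕ => a - 1)
          (fun a b => by simp only [Nat.sub_max_sub_right]) rfl
        rw [this]
        apply sup_congr rfl
        intro y _
        exact rem_adv y
      set C := X.image (col gχ) with hC
      set C' := X'.image (col gχ) with hC'
      have hsub : ∀ k, k ∈ C → k ≠ some none → k ∈ C' := by
        intro k hk hne
        obtain ⟨y, hy, rfl⟩ := mem_image.mp hk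
        refine mem_image.mpr ⟨_, mem_image_of_mem _ hy, ?_⟩
        have := (rem_pos_iff y).not.mpr hne
        rw [col_adv, if_neg (by omega)]
      have hp := sup_pos_iff X
      have hp' := sup_pos_iff X'
      rw [← hC] at hp
      rw [← hC'] at hp'
      simp only [gψ, ← hC, ← hC', e']
      rw [e'] at hp'
      rcases Nat.lt_or_ge 1 (X.sup rem) with h2 | h2
      · have hCC : C ⊆ C' := by
          intro k hk
          by_cases hne : k = some none
          · rw [hne]; exact hp'.mp (by omega)
          · exact hsub k hk hne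
        have hcard : (C.card : ℤ) ≤ C'.card := by exact_mod_cast card_le_card hCC
        by_cases hR : none ∈ C
        · have hR' := hCC hR
          rw [if_pos ⟨hR, by omega⟩, if_pos ⟨hR', by omega⟩]
          have : ((X.sup rem - 1 : ℕ) : ℤ) = (X.sup rem : ℕ) - 1 := by omega
          rw [this]
          nlinarith
        · rw [if_neg (fun h => hR h.1)]
          split_ifs with hR'
          · have : (C.card : ℤ) + 1 ≤ C'.card := by
              exact_mod_cast card_lt_card ⟨hCC, fun h => hR (h hR'.1)⟩
            have : (0 : ℤ) ≤ ((X.sup rem - 1 : ℕ) : ℤ) := by positivity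
            nlinarith
          · nlinarith
      · rw [if_neg (show ¬ (none ∈ C' ∧ 0 < X.sup rem - 1) from fun h => by omega)]
        rcases Nat.eq_zero_or_pos (X.sup rem) with h0 | h0
        · have hCC : C ⊆ C' := by
            intro k hk
            apply hsub k hk
            rintro rfl
            have := hp.mpr hk
            omega
          have hcard : (C.card : ℤ) ≤ C'.card := by exact_mod_cast card_le_card hCC
          rw [if_neg (fun h => by omega)]
          nlinarith
        · have h1 : X.sup rem = 1 := by omega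
          have hpC := hp.mp h0
          have hCC : C.erase (some none) ⊆ C' := fun k hk =>
            hsub k (mem_of_mem_erase hk) (ne_of_mem_erase hk)
          have hR' : none ∈ C' := by
            obtain ⟨y, hy, hy'⟩ := mem_image.mp hpC
            have a1 := (rem_pos_iff y).mpr hy'
            have a2 : rem y ≤ X.sup rem := le_sup (f := rem) hy
            refine mem_image.mpr ⟨_, mem_image_of_mem _ hy, ?_⟩
            rw [col_adv, if_pos (by omega)]
          have hce := card_erase_add_one hpC
          by_cases hR : none ∈ C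
          · rw [if_pos ⟨hR, h0⟩, h1]
            have : (C.card : ℤ) ≤ C'.card + 1 := by
              have := card_le_card hCC
              omega
            push_cast
            nlinarith
          · rw [if_neg (fun h => hR h.1)]
            have : (C.card : ℤ) ≤ C'.card := by
              have := card_lt_card (show C.erase (some none) ⊂ C' from
                ⟨hCC, fun h => hR (mem_of_mem_erase (h hR'))⟩)
              omega
            nlinarith
    · have e : ((X.image fun y => gγ y (Sum.inr k)).image (col gχ)).card =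
          (X.image (col gχ)).card := by
        rw [image_image, ← card_image_of_injective (X.image (col gχ))
          (Equiv.swap (some none) k).injective, image_image]
        congr 1
        apply image_congr
        intro y _
        exact col_swap y k hk
      have h1 := sup_cases (X.image fun y => gγ y (Sum.inr k)) (by
        intro y hy
        obtain ⟨x, -, rfl⟩ := mem_image.mp hy
        exact rem_swap x k hk)
      simp only [gψ, e]
      split_ifs <;> omega

theorem gψ_total (y : GK c ⊕ GE l pad) :
    gψ {y} + ((l + 1 + c * (l + 2) : ℕ) : ℤ) ≤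
      gψ (univ.image Sum.inl : Finset (GK c ⊕ GE l pad)) := by
  have e : (univ.image Sum.inl : Finset (GK c ⊕ GE l pad)).image (col gχ) = univ := by
    rw [image_image]
    exact image_id
  have e' : (univ.image Sum.inl : Finset (GK c ⊕ GE l pad)).sup rem = l + 1 :=
    le_antisymm (sup_rem_le _)
      (le_sup (f := rem) (b := Sum.inl (some none)) (mem_image_of_mem _ (mem_univ _)))
  have h3 := sup_rem_le ({y} : Finset (GK c ⊕ GE l pad))
  simp only [gψ, e, e', image_singleton, card_singleton, card_univ, Fintype.card_option,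
    Fintype.card_fin, mem_univ, true_and]
  rw [if_pos (Nat.succ_pos l)]
  push_cast
  split_ifs <;> nlinarith

theorem act_adv (j : ℕ) : ∀ i, j ≤ i → i ≤ l + 1 →
    act gγ (node i : GK c ⊕ GE l pad) (List.replicate j (Sum.inr (some none))) = node (i - j) := by
  induction j with
  | zero => intro i _ _; rfl
  | succ j ih =>
    intro i h1 h2
    rw [List.replicate_succ, act_cons]
    have : gγ (node i : GK c ⊕ GE l pad) (Sum.inr (some none)) = node (i - 1) := by
      simp only [gγ, if_true]
      rw [if_pos (by rw [col_node, if_neg (by omega)]), rem_node i h2]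
    rw [this, ih _ (by omega) (by omega)]
    congr 1
    omega

theorem act_adv_fix (j : ℕ) (y : GK c ⊕ GE l pad) (h : col gχ y ≠ some none) :
    act gγ y (List.replicate j (Sum.inr (some none))) = y := by
  induction j with
  | zero => rfl
  | succ j ih =>
    rw [List.replicate_succ, act_cons]
    simp only [gγ, if_true, if_neg h]
    exact ih

theorem node_top : (node (l + 1) : GK c ⊕ GE l pad) = Sum.inl (some none) := by
  simp [node]

theorem act_adv_top : act gγ (Sum.inl (some none) : GK c ⊕ GE l pad)
    (List.replicate (l + 1) (Sum.inr (some none))) = Sum.inl none := by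
  rw [← node_top, act_adv _ _ le_rfl le_rfl, Nat.sub_self]
  rfl

theorem exists_merge_word (L : List (Fin c)) : ∃ v : List (GG c pad), v.length = L.length * (l + 2) ∧
    act gγ (Sum.inl none : GK c ⊕ GE l pad) v = Sum.inl none ∧
    ∀ i ∈ L, act gγ (Sum.inl (some (some i)) : GK c ⊕ GE l pad) v = Sum.inl none := by
  induction L with
  | nil => exact ⟨[], by simp, rfl, by simp⟩
  | cons i L ih =>
    obtain ⟨v, hv, hv1, hv2⟩ := ih
    refine ⟨Sum.inr (some (some i)) :: (List.replicate (l + 1) (Sum.inr (some none)) ++ v),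
      by simp [hv]; ring, ?_, ?_⟩
    · rw [act_cons, act_append]
      have : gγ (Sum.inl none : GK c ⊕ GE l pad) (Sum.inr (some (some i))) = Sum.inl none := by
        simp [gγ, col]
      rw [this, act_adv_fix _ _ (by simp [col]), hv1]
    · intro j hj
      rw [act_cons, act_append]
      by_cases hji : j = i
      · subst hji
        have : gγ (Sum.inl (some (some j)) : GK c ⊕ GE l pad) (Sum.inr (some (some j))) =
            Sum.inl (some none) := by
          simp [gγ, col]
        rw [this, act_adv_top, hv1]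
      · have : gγ (Sum.inl (some (some j)) : GK c ⊕ GE l pad) (Sum.inr (some (some i))) =
            Sum.inl (some (some j)) := by
          simp [gγ, col, hji]
        rw [this, act_adv_fix _ _ (by simp [col])]
        exact hv2 j (by simpa [hji] using hj)

theorem exists_gadget_word : ∃ v : List (GG c pad), v.length = l + 1 + c * (l + 2) ∧
    ∀ k k' : GK c, act gγ (Sum.inl k : GK c ⊕ GE l pad) v = act gγ (Sum.inl k') v := by
  obtain ⟨v, hv, hv1, hv2⟩ := exists_merge_word (l := l) (pad := pad) (List.finRange c)
  refine ⟨List.replicate (l + 1) (Sum.inr (some none)) ++ v, by simp [hv], ?_⟩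
  have : ∀ k : GK c, act gγ (Sum.inl k : GK c ⊕ GE l pad)
      (List.replicate (l + 1) (Sum.inr (some none)) ++ v) = Sum.inl none := by
    rintro (_ | _ | i)
    · rw [act_append, act_adv_fix _ _ (by simp [col]), hv1]
    · rw [act_append, act_adv_top, hv1]
    · rw [act_append, act_adv_fix _ _ (by simp [col]), hv2 i (List.mem_finRange i)]
  intro k k'
  rw [this, this]

theorem gadget_sc : StronglyConnected (gγ : GK c ⊕ GE l pad → GG c pad → GK c ⊕ GE l pad) := by
  have h0 : ∀ y : GK c ⊕ GE l pad, col gχ y ≠ some none →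
      gγ y (Sum.inr (col gχ y)) = Sum.inl (some none) := by
    intro y hy
    simp [gγ, hy]
  have h1 : ∀ y : GK c ⊕ GE l pad, ∃ u, act gγ y u = Sum.inl (some none) := by
    intro y
    by_cases hy : col gχ y = some none
    · refine ⟨List.replicate (rem y) (Sum.inr (some none)) ++ [Sum.inr none], ?_⟩
      rw [act_append]
      conv_lhs => rw [← node_rem y hy, rem_node _ (rem_le y)]
      rw [act_adv _ _ le_rfl (rem_le y), Nat.sub_self]
      exact h0 (Sum.inl none) (by simp [col])
    · exact ⟨[Sum.inr (col gχ y)], h0 y hy⟩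
  have h2 : ∀ y : GK c ⊕ GE l pad, ∃ u, act gγ (Sum.inl (some none)) u = y := by
    intro y
    by_cases hy : col gχ y = some none
    · refine ⟨List.replicate (l + 1 - rem y) (Sum.inr (some none)), ?_⟩
      have := rem_le y
      rw [← node_top, act_adv _ _ (by omega) le_rfl, show l + 1 - (l + 1 - rem y) = rem y by omega,
        node_rem y hy]
    · rcases y with k | j | j
      · refine ⟨[Sum.inr k], ?_⟩
        simp only [col] at hy
        simp [gγ, hy, col]
      · exact absurd rfl hy
      · exact ⟨[Sum.inr none, Sum.inl j], by simp [gγ, col]⟩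
  intro y y'
  obtain ⟨u, hu⟩ := h1 y
  obtain ⟨u', hu'⟩ := h2 y'
  exact ⟨u ++ u', by rw [act_append, hu, hu']⟩

end Pool.Agent.MP_aef39a_lc

end

-- part MP_aef39a_lc.Hard
section

/-! A slowly synchronizing automaton yields a strongly connected non-simple extremal one. -/

namespace Pool.Agent.MP_aef39a_lc

open Finset

theorem gadget_step {Q A : Type} [Fintype Q] [Fintype A] (δ : Q → A → Q) (hsc : StronglyConnected δ)
    (r : ℕ) (hr : 1 ≤ r) (h : IsLeast {k : ℕ | ∃ w : List A, IsReset δ w ∧ w.length = k} r)
    (c l pad : ℕ) :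
    ∃ (Q' A' : Type) (_ : Fintype Q') (_ : Nonempty Q') (_ : Fintype A') (_ : Nonempty A')
      (δ' : Q' → A' → Q'), Fintype.card Q' = Fintype.card Q * (c + 2) + l + pad ∧
      StronglyConnected δ' ∧ ¬ Simple δ' ∧
      IsLeast {k : ℕ | ∃ w : List A', IsReset δ' w ∧ w.length = k} (r + (l + 1 + c * (l + 2))) := by
  classical
  obtain ⟨w, hw, hwl⟩ := h.1
  have hqq : ∃ q q' : Q, q ≠ q' := by
    by_contra hno
    push Not at hno
    have := h.2 ⟨[], fun p q => hno _ _, rfl⟩
    simp only [List.length_nil] at this
    omega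
  obtain ⟨q, q', hqq⟩ := hqq
  obtain ⟨v, hv, hv'⟩ := exists_gadget_word (c := c) (l := l) (pad := pad)
  refine ⟨(Q × GK c) ⊕ GE l pad, A ⊕ GG c pad, inferInstance, ⟨Sum.inl (q, none)⟩, inferInstance,
    ⟨Sum.inr (Sum.inr none)⟩, glue δ (act δ q w) gχ gγ, ?_, glue_sc _ _ _ _ hsc gadget_sc,
    glue_not_simple _ _ _ _ q q' hqq none (some none) (by simp), ?_⟩
  · simp only [Fintype.card_sum, Fintype.card_prod, Fintype.card_option, Fintype.card_fin]
    ring
  · rw [← hwl]
    apply glue_least δ (act δ q w) gχ gγ gψ gψ_reset gψ_step _ gψ_total v hv hv' w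
    · rintro rfl
      simp only [List.length_nil] at hwl
      omega
    · exact fun p => hw p q
    · intro u hu
      rw [hwl]
      exact h.2 ⟨u, hu, rfl⟩

theorem counter_of_sc {Q A : Type} [Fintype Q] [Fintype A] (δ : Q → A → Q)
    (hsc : StronglyConnected δ) (r : ℕ)
    (h : IsLeast {k : ℕ | ∃ w : List A, IsReset δ w ∧ w.length = k} r)
    (hr : (24 * Fintype.card Q + 19) ^ 2 ≤ r) :
    ∃ (Q' A' : Type) (_ : Fintype Q') (_ : Nonempty Q') (_ : Fintype A') (_ : Nonempty A')
      (δ' : Q' → A' → Q'), StronglyConnected δ' ∧ Extremal δ' ∧ ¬ Simple δ' := by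
  set n := Fintype.card Q with hn
  set y := Nat.sqrt (r + 5) with hy
  have hy1 : y * y ≤ r + 5 := Nat.sqrt_le _
  have hy2 : r + 5 < (y + 1) * (y + 1) := Nat.lt_succ_sqrt _
  have hy3 : 24 * n + 19 ≤ y := by
    rw [hy, Nat.le_sqrt']
    omega
  obtain ⟨t, ht⟩ : ∃ t, (y + 1) * (y + 1) = r + 6 + t := ⟨(y + 1) * (y + 1) - (r + 6), by omega⟩
  have ht2 : t ≤ 2 * y := by nlinarith
  have hr1 : 1 ≤ r := le_trans (Nat.one_le_pow _ _ (by omega)) hr
  obtain ⟨Q1, A1, _, _, _, _, δ1, hc1, hsc1, -, h1⟩ := gadget_step δ hsc r hr1 h 0 (t % 3) 0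
  obtain ⟨Q2, A2, i1, i2, i3, i4, δ2, hc2, hsc2, hns, h2⟩ := gadget_step δ1 hsc1 _ (by omega) h1 2
    (t / 3) (y + 2 - (Fintype.card Q1 * 4 + t / 3))
  refine ⟨Q2, A2, i1, i2, i3, i4, δ2, hsc2, ?_, hns⟩
  unfold Extremal
  have e1 : Fintype.card Q2 - 1 = y + 1 := by omega
  rw [e1, sq, ht]
  convert h2 using 1
  omega

theorem short_path {Q A : Type} [Fintype Q] (δ : Q → A → Q) (q : Q) (u : List A) :
    ∃ u' : List A, u'.length ≤ Fintype.card Q ∧ act δ q u' = act δ q u := by
  classical
  let R : ℕ → Finset Q := fun j => univ.filter fun p => ∃ u' : List A, u'.length ≤ j ∧ act δ q u' = p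
  have hmono : ∀ j, R j ⊆ R (j + 1) := by
    intro j p hp
    simp only [R, mem_filter, mem_univ, true_and] at hp ⊢
    obtain ⟨u', h1, h2⟩ := hp
    exact ⟨u', by omega, h2⟩
  have main : ∀ j, (∀ u : List A, act δ q u ∈ R j) ∨ j + 1 ≤ (R j).card := by
    intro j
    induction j with
    | zero =>
      right
      exact card_pos.mpr ⟨q, by simp only [R, mem_filter, mem_univ, true_and]; exact ⟨[], le_rfl, rfl⟩⟩
    | succ j ih =>
      rcases ih with ih | ih
      · exact Or.inl fun u => hmono j (ih u)
      · by_cases he : R j = R (j + 1)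
        · left
          intro u
          rw [← he]
          induction u using List.reverseRecOn with
          | nil => simp only [R, mem_filter, mem_univ, true_and]; exact ⟨[], Nat.zero_le _, rfl⟩
          | append_singleton u a ihu =>
            rw [he]
            simp only [R, mem_filter, mem_univ, true_and] at ihu ⊢
            obtain ⟨u', h1, h2⟩ := ihu
            exact ⟨u' ++ [a], by simpa using h1, by rw [act_append, act_append, h2]⟩
        · right
          have := card_lt_card (lt_of_le_of_ne (hmono j) he)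
          omega
  rcases main (Fintype.card Q) with h | h
  · simpa [R] using h u
  · have := card_le_univ (R (Fintype.card Q))
    omega

theorem counter_of_slow {Q A : Type} [Fintype Q] [Nonempty Q] [Fintype A] (δ : Q → A → Q)
    (hsync : ∃ w, IsReset δ w)
    (hslow : ∀ w, IsReset δ w → (25 * Fintype.card Q + 19) ^ 2 ≤ w.length) :
    ∃ (Q' A' : Type) (_ : Fintype Q') (_ : Nonempty Q') (_ : Fintype A') (_ : Nonempty A')
      (δ' : Q' → A' → Q'), StronglyConnected δ' ∧ Extremal δ' ∧ ¬ Simple δ' := by
  classical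
  obtain ⟨w, hw⟩ := hsync
  obtain ⟨q0⟩ := ‹Nonempty Q›
  set p0 := act δ q0 w with hp0
  let Z := {z : Q // ∃ u, act δ p0 u = z}
  let δ0 : Z → A → Z := fun z a => ⟨δ z.1 a, by
    obtain ⟨u, hu⟩ := z.2
    exact ⟨u ++ [a], by rw [act_append, hu]; rfl⟩⟩
  have hact : ∀ (u : List A) (z : Z), (act δ0 z u).1 = act δ z.1 u := by
    intro u
    induction u with
    | nil => intro z; rfl
    | cons a u ih => intro z; exact ih _
  have hsc : StronglyConnected δ0 := by
    intro z z'
    obtain ⟨u, hu⟩ := z'.2
    exact ⟨w ++ u, Subtype.ext (by rw [hact, act_append, hw _ q0, hu])⟩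
  have hne : {k : ℕ | ∃ w : List A, IsReset δ0 w ∧ w.length = k}.Nonempty :=
    ⟨_, w, fun z z' => Subtype.ext (by rw [hact, hact, hw _ z'.1]), rfl⟩
  have hleast : IsLeast {k : ℕ | ∃ w : List A, IsReset δ0 w ∧ w.length = k} (sInf _) :=
    ⟨Nat.sInf_mem hne, fun k hk => Nat.sInf_le hk⟩
  apply counter_of_sc δ0 hsc _ hleast
  obtain ⟨w0, hw0, hw0l⟩ := hleast.1
  have hin : ∀ L : List Q, ∃ u : List A, u.length ≤ L.length * Fintype.card Q ∧
      ∀ q ∈ L, ∃ u', act δ p0 u' = act δ q u := by
    intro L
    induction L with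
    | nil => exact ⟨[], by simp, by simp⟩
    | cons q L ih =>
      obtain ⟨u, hu, hu'⟩ := ih
      obtain ⟨u1, h1, h2⟩ := short_path δ (act δ q u) w
      refine ⟨u ++ u1, by simp only [List.length_append, List.length_cons, Nat.succ_mul]; omega, ?_⟩
      intro q' hq'
      rcases List.mem_cons.mp hq' with rfl | hq'
      · exact ⟨[], by rw [act_append, h2, hw _ q0]; rfl⟩
      · obtain ⟨u2, hu2⟩ := hu' q' hq'
        exact ⟨u2 ++ u1, by rw [act_append, act_append, hu2]⟩
  obtain ⟨u, hu, hu'⟩ := hin (univ : Finset Q).toList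
  have hres : IsReset δ (u ++ w0) := by
    intro p q
    have := congrArg Subtype.val (hw0 ⟨act δ p u, hu' p (by simp)⟩ ⟨act δ q u, hu' q (by simp)⟩)
    rw [hact, hact] at this
    rw [act_append, act_append]
    exact this
  have h1 := hslow _ hres
  rw [List.length_append, hw0l] at h1
  rw [length_toList, card_univ] at hu
  have h2 : Fintype.card Z ≤ Fintype.card Q := Fintype.card_subtype_le _
  have h3 : (24 * Fintype.card Z + 19) ^ 2 ≤ (24 * Fintype.card Q + 19) ^ 2 :=
    Nat.pow_le_pow_left (by omega) 2
  nlinarith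

end Pool.Agent.MP_aef39a_lc

end
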