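import Pool.Agent.MP_aef39a_lc.Basic

-- part MP_aef39a_lc.Extend
section

/-! The averaging extension lemma inside the classes of a congruence. -/

namespace Pool.Agent.MP_aef39a_lc

open Finset Module

/-- ascending chain lemma -/
theorem chain_lemma {X A I : Type} [Fintype X] (δ : X → A → X) (g : I → X → ℚ)
    (hg : ∃ i, g i ≠ 0) (Z : Submodule ℚ (X → ℚ)) (k : ℕ) (hk : finrank ℚ Z ≤ k)
    (h : ∀ (u : List A) (i : I), u.length ≤ k → (fun x => g i (act δ x u)) ∈ Z) :
    ∀ (u : List A) (i : I), (fun x => g i (act δ x u)) ∈ Z := by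
  classical
  let D : ℕ → Submodule ℚ (X → ℚ) := fun j =>
    Submodule.span ℚ {f | ∃ (u : List A) (i : I), u.length ≤ j ∧ f = fun x => g i (act δ x u)}
  have hmono : ∀ j, D j ≤ D (j + 1) := fun j =>
    Submodule.span_mono fun f ⟨u, i, hu, hf⟩ => ⟨u, i, by omega, hf⟩
  have hstep : ∀ j (a : A) (f : X → ℚ), f ∈ D j → (fun x => f (δ x a)) ∈ D (j + 1) := by
    intro j a f hf
    induction hf using Submodule.span_induction with
    | mem f hf =>
      obtain ⟨u, i, hu, rfl⟩ := hf
      exact Submodule.subset_span ⟨a :: u, i, by simpa using hu, rfl⟩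
    | zero => exact Submodule.zero_mem _
    | add f f' _ _ h1 h2 => exact Submodule.add_mem _ h1 h2
    | smul c f _ h1 => exact Submodule.smul_mem _ c h1
  have main : ∀ j, (∀ (u : List A) (i : I), (fun x => g i (act δ x u)) ∈ D j) ∨
      j + 1 ≤ finrank ℚ (D j) := by
    intro j
    induction j with
    | zero =>
      right
      obtain ⟨i, hi⟩ := hg
      have : D 0 ≠ ⊥ := by
        intro h0
        have : g i ∈ D 0 := Submodule.subset_span ⟨[], i, le_rfl, rfl⟩
        rw [h0] at this
        exact hi this
      have h2 : finrank ℚ (D 0) ≠ 0 := fun h => this (Submodule.finrank_eq_zero.mp h)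
      omega
    | succ j ih =>
      rcases ih with ih | ih
      · exact Or.inl fun u i => hmono j (ih u i)
      · by_cases he : D j = D (j + 1)
        · left
          intro u i
          rw [← he]
          induction u with
          | nil => exact Submodule.subset_span ⟨[], i, Nat.zero_le _, rfl⟩
          | cons a u ihu =>
            have := hstep j a _ ihu
            rw [← he] at this
            exact this
        · right
          have := Submodule.finrank_lt_finrank_of_lt (lt_of_le_of_ne (hmono j) he)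
          omega
  have hle : D k ≤ Z := Submodule.span_le.mpr fun f ⟨u, i, hu, hf⟩ => hf ▸ h u i hu
  rcases main k with h1 | h1
  · exact fun u i => hle (h1 u i)
  · have := Submodule.finrank_mono hle
    omega

open Classical in
/-- the class of `x` -/
noncomputable def cls {X : Type} [Fintype X] (τ : Setoid X) (x : X) : Finset X :=
  univ.filter fun y => τ.r y x

@[simp] theorem mem_cls {X : Type} [Fintype X] (τ : Setoid X) (x y : X) :
    y ∈ cls τ x ↔ τ.r y x := by simp [cls]

theorem finrank_zero_sum {X : Type} [Fintype X] (τ : Setoid X) [Fintype (Quotient τ)] :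
    ∃ Z : Submodule ℚ (X → ℚ), finrank ℚ Z + Fintype.card (Quotient τ) = Fintype.card X ∧
      ∀ f : X → ℚ, f ∈ Z ↔ ∀ x, ∑ y ∈ cls τ x, f y = 0 := by
  classical
  let Φ : (X → ℚ) →ₗ[ℚ] (Quotient τ → ℚ) :=
    { toFun := fun f K => ∑ y ∈ cls τ K.out, f y
      map_add' := by intro f f'; ext K; simp [sum_add_distrib]
      map_smul' := by intro c f; ext K; simp [mul_sum] }
  have hcls : ∀ x, cls τ (Quotient.mk τ x).out = cls τ x := by
    intro x
    ext y
    simp only [mem_cls]
    have : τ.r (Quotient.mk τ x).out x := Quotient.mk_out x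
    exact ⟨fun h => τ.trans h this, fun h => τ.trans h (τ.symm this)⟩
  have hsurj : LinearMap.range Φ = ⊤ := by
    rw [LinearMap.range_eq_top]
    intro h
    refine ⟨fun y => if y = (Quotient.mk τ y).out then h (Quotient.mk τ y) else 0, ?_⟩
    ext K
    simp only [Φ, LinearMap.coe_mk, AddHom.coe_mk]
    rw [sum_eq_single K.out]
    · simp
    · intro y hy hne
      have : Quotient.mk τ y = K := by
        rw [← Quotient.out_eq K]
        exact Quotient.sound ((mem_cls _ _ _).mp hy)
      rw [this, if_neg hne]
    · intro h; exact absurd ((mem_cls _ _ _).mpr (τ.refl _)) h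
  refine ⟨LinearMap.ker Φ, ?_, fun f => ?_⟩
  · have := LinearMap.finrank_range_add_finrank_ker Φ
    rw [hsurj] at this
    simp only [finrank_top, finrank_fintype_fun_eq_card] at this
    omega
  · rw [LinearMap.mem_ker]
    constructor
    · intro h x
      have := congrFun h (Quotient.mk τ x)
      simpa [Φ, hcls] using this
    · intro h
      ext K
      exact h K.out

theorem extend_one {X A I : Type} [Fintype X] [DecidableEq X] [Fintype I] (δ : X → A → X)
    (τ : Setoid X) [Fintype (Quotient τ)]
    (hτ : ∀ (p q : X) (a : A), τ.r p q → τ.r (δ p a) (δ q a))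
    (s : ℕ) (hs : ∀ x, (cls τ x).card = s)
    (w : I → List A) (L c : ℕ) (hc : 0 < c) (hL : ∀ i, (w i).length ≤ L)
    (hunif : ∀ p q, (univ.filter fun i => act δ p (w i) = q).card = c)
    (hsync : ∃ z, IsReset δ z)
    (S : Finset X) (x0 : X) (hS : S ⊆ cls τ x0) (hne : S.Nonempty) (hlt : S.card < s) :
    ∃ (v : List A) (x1 : X), v.length ≤ Fintype.card X - Fintype.card (Quotient τ) + L ∧
      S.card < ((cls τ x1).filter fun x => act δ x v ∈ S).card := by
  classical
  let γ : X → ℚ := fun x => (if x ∈ S then (s : ℚ) else 0) - (if x ∈ cls τ x0 then (S.card : ℚ) else 0)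
  have hγsum : ∑ x, γ x = 0 := by
    simp only [γ, sum_sub_distrib, sum_ite_mem, univ_inter, sum_const, nsmul_eq_mul, hs]
    ring
  have hav : ∀ x, ∑ i, γ (act δ x (w i)) = 0 := by
    intro x
    rw [← sum_fiberwise_of_maps_to (s := univ) (t := univ) (g := fun i => act δ x (w i))
      (fun _ _ => mem_univ _)]
    have : ∀ q, ∑ i ∈ univ.filter (fun i => act δ x (w i) = q), γ (act δ x (w i)) = c * γ q := by
      intro q
      rw [sum_congr rfl (g := fun _ => γ q) (fun i hi => by rw [(mem_filter.mp hi).2])]
      simp [hunif]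
    simp only [this, ← mul_sum, hγsum, mul_zero]
  obtain ⟨y0, hy0⟩ := hne
  have hγpos : 0 < γ y0 := by
    simp only [γ, if_pos hy0, if_pos (hS hy0)]
    have : (S.card : ℚ) < s := by exact_mod_cast hlt
    linarith
  have hhit : ∀ p, ∃ i, act δ p (w i) = y0 := by
    intro p
    obtain ⟨i, hi⟩ := card_pos.mp (show 0 < (univ.filter fun i => act δ p (w i) = y0).card by
      rw [hunif]; exact hc)
    exact ⟨i, (mem_filter.mp hi).2⟩
  obtain ⟨Z, hZ1, hZ2⟩ := finrank_zero_sum τ
  have hex : ∃ (u : List A) (i : I), u.length ≤ Fintype.card X - Fintype.card (Quotient τ) ∧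
      (fun x => γ (act δ (act δ x u) (w i))) ∉ Z := by
    by_contra hno
    push Not at hno
    have := chain_lemma δ (fun i x => γ (act δ x (w i))) ?_ Z
      (Fintype.card X - Fintype.card (Quotient τ)) (by omega) hno
    · obtain ⟨z, hz⟩ := hsync
      obtain ⟨i, hi⟩ := hhit (act δ x0 z)
      have h1 := (hZ2 _).mp (this z i) x0
      have h2 : ∀ y, γ (act δ (act δ y z) (w i)) = γ y0 := fun y => by rw [hz y x0, hi]
      simp only [h2, sum_const, hs, nsmul_eq_mul] at h1
      have : (0 : ℚ) < s := by exact_mod_cast (by omega : 0 < s)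
      nlinarith
    · obtain ⟨i, hi⟩ := hhit x0
      refine ⟨i, fun h => ?_⟩
      have := congrFun h x0
      simp only [hi, Pi.zero_apply] at this
      linarith
  obtain ⟨u, i, hu, hi⟩ := hex
  rw [hZ2] at hi
  push Not at hi
  obtain ⟨x1, hx1⟩ := hi
  have hsum0 : ∑ j, ∑ y ∈ cls τ x1, γ (act δ (act δ y u) (w j)) = 0 := by
    rw [sum_comm]
    simp [hav]
  have hpos : ∃ j, 0 < ∑ y ∈ cls τ x1, γ (act δ (act δ y u) (w j)) := by
    by_contra hno
    push Not at hno
    exact hx1 ((sum_eq_zero_iff_of_nonpos fun j _ => hno j).mp hsum0 i (mem_univ _))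
  obtain ⟨j, hj⟩ := hpos
  refine ⟨u ++ w j, x1, by have := hL j; simp only [List.length_append]; omega, ?_⟩
  simp only [← act_append] at hj
  set v := u ++ w j
  simp only [γ, sum_sub_distrib, ← sum_filter, sum_const, nsmul_eq_mul] at hj
  by_cases hin : act δ x1 v ∈ cls τ x0
  · have : ((cls τ x1).filter fun y => act δ y v ∈ cls τ x0) = cls τ x1 := by
      apply filter_true_of_mem
      intro y hy
      rw [mem_cls] at hy hin ⊢
      exact τ.trans (act_congr δ τ hτ v _ _ hy) hin
    rw [this, hs] at hj
    have hs0 : (0 : ℚ) < s := by exact_mod_cast (by omega : 0 < s)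
    have : (S.card : ℚ) < ((cls τ x1).filter fun x => act δ x v ∈ S).card := by nlinarith
    exact_mod_cast this
  · exfalso
    have : ((cls τ x1).filter fun y => act δ y v ∈ S) = ∅ := by
      apply filter_false_of_mem
      intro y hy hy'
      apply hin
      have := hS hy'
      rw [mem_cls] at hy this ⊢
      exact τ.trans (τ.symm (act_congr δ τ hτ v _ _ hy)) this
    rw [this] at hj
    simp only [card_empty, Nat.cast_zero, zero_mul, zero_sub, neg_pos] at hj
    have : (0 : ℚ) ≤ ((cls τ x1).filter fun y => act δ y v ∈ cls τ x0).card * (S.card : ℚ) := by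
      positivity
    linarith

theorem extend_all {X A I : Type} [Fintype X] [DecidableEq X] [Fintype I] (δ : X → A → X)
    (τ : Setoid X) [Fintype (Quotient τ)]
    (hτ : ∀ (p q : X) (a : A), τ.r p q → τ.r (δ p a) (δ q a))
    (s : ℕ) (hs : ∀ x, (cls τ x).card = s)
    (w : I → List A) (L c : ℕ) (hc : 0 < c) (hL : ∀ i, (w i).length ≤ L)
    (hunif : ∀ p q, (univ.filter fun i => act δ p (w i) = q).card = c)
    (hsync : ∃ z, IsReset δ z) (j : ℕ) :
    ∀ (S : Finset X) (x0 : X), S ⊆ cls τ x0 → S.Nonempty → s ≤ S.card + j →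
    ∃ (v : List A) (x1 : X), v.length ≤ j * (Fintype.card X - Fintype.card (Quotient τ) + L) ∧
      ∀ x ∈ cls τ x1, act δ x v ∈ S := by
  induction j with
  | zero =>
    intro S x0 hS _ hle
    have : S = cls τ x0 := eq_of_subset_of_card_le hS (by rw [hs]; omega)
    exact ⟨[], x0, by simp, fun x hx => by simpa [this] using hx⟩
  | succ j ih =>
    intro S x0 hS hne hle
    by_cases hlt : S.card < s
    · obtain ⟨v, x1, hv, hcard⟩ := extend_one δ τ hτ s hs w L c hc hL hunif hsync S x0 hS hne hlt
      obtain ⟨v', x2, hv', h⟩ := ih ((cls τ x1).filter fun x => act δ x v ∈ S) x1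
        (filter_subset _ _) (card_pos.mp (by omega)) (by omega)
      refine ⟨v' ++ v, x2, ?_, fun x hx => ?_⟩
      · rw [List.length_append, Nat.succ_mul]; omega
      · rw [act_append]; exact (mem_filter.mp (h x hx)).2
    · have : S = cls τ x0 := eq_of_subset_of_card_le hS (by rw [hs]; omega)
      exact ⟨[], x0, by simp, fun x hx => by simpa [this] using hx⟩

end Pool.Agent.MP_aef39a_lc

end

-- part MP_aef39a_lc.Uniform
section

/-! Non-simple automata with a uniformly transitive family of short permutation words. -/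

namespace Pool.Agent.MP_aef39a_lc

open Finset

theorem exists_merge {Q A : Type} (δ : Q → A → Q) (σ : Setoid Q)
    (hσ : ∀ (p q : Q) (a : A), σ.r p q → σ.r (δ p a) (δ q a)) (z : List A) :
    ∀ p q : Q, σ.r p q → p ≠ q → act δ p z = act δ q z →
      ∃ (x y : Q) (a : A), σ.r x y ∧ x ≠ y ∧ δ x a = δ y a := by
  induction z with
  | nil => intro p q _ hne h; exact absurd h hne
  | cons a z ih =>
    intro p q hpq hne h
    by_cases he : δ p a = δ q a
    · exact ⟨p, q, a, hpq, hne, he⟩
    · exact ih _ _ (hσ p q a hpq) he h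

theorem final_ineq (m s : ℕ) (hm : 2 ≤ m) (hs : 2 ≤ s) :
    (m - 1) * (m - 1 + m * s) + (s - 2) * (m * s - m + m * s) + 1 < (m * s - 1) ^ 2 := by
  obtain ⟨a, rfl⟩ : ∃ a, m = a + 2 := ⟨m - 2, by omega⟩
  obtain ⟨b, rfl⟩ : ∃ b, s = b + 2 := ⟨s - 2, by omega⟩
  have e1 : (a + 2) * (b + 2) - (a + 2) = (a + 2) * (b + 1) := by
    apply Nat.sub_eq_of_eq_add; ring
  have e2 : (a + 2) * (b + 2) - 1 = a * b + 2 * a + 2 * b + 3 := by
    apply Nat.sub_eq_of_eq_add; ring
  rw [e1, e2]
  simp only [Nat.add_sub_cancel, show a + 2 - 1 = a + 1 by omega]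
  nlinarith [Nat.zero_le (a * b), Nat.zero_le (a * a * b), Nat.zero_le (a * b * b),
    Nat.zero_le (a * a * b * b), Nat.zero_le (a * a), Nat.zero_le (b * b)]

theorem short_of_uniform {Q A I : Type} [Fintype Q] [DecidableEq Q] [Fintype I] (δ : Q → A → Q)
    (w : I → List A) (c : ℕ) (hc : 0 < c) (hL : ∀ i, (w i).length ≤ Fintype.card Q)
    (hperm : ∀ i, Function.Injective fun q => act δ q (w i))
    (hunif : ∀ p q, (univ.filter fun i => act δ p (w i) = q).card = c)
    (hsync : ∃ z, IsReset δ z) (hns : ¬ Simple δ) :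
    ∃ u, IsReset δ u ∧ u.length < (Fintype.card Q - 1) ^ 2 := by
  classical
  unfold Simple at hns
  push Not at hns
  obtain ⟨σ, hσ, hne1, p1, q1, hne2⟩ := hns
  have hne1' : ∃ p q, σ.r p q ∧ p ≠ q := by
    obtain ⟨p, q, h⟩ := hne1
    rcases h with h | h
    · exact ⟨p, q, h⟩
    · exact absurd (by rw [h.2]) h.1
  obtain ⟨p0, q0, hpq0, hne0⟩ := hne1'
  obtain ⟨z, hz⟩ := hsync
  obtain ⟨x, y, a, hxy, hxyne, hmerge⟩ := exists_merge δ σ hσ z p0 q0 hpq0 hne0 (hz _ _)
  -- all classes have the same size
  have hle : ∀ p q, (cls σ p).card ≤ (cls σ q).card := by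
    intro p q
    obtain ⟨i, hi⟩ := card_pos.mp (show 0 < (univ.filter fun i => act δ p (w i) = q).card by
      rw [hunif]; exact hc)
    apply card_le_card_of_injOn (fun t => act δ t (w i))
    · intro t ht
      simp only [mem_coe, mem_cls] at ht ⊢
      rw [← (mem_filter.mp hi).2]
      exact act_congr δ σ hσ _ _ _ ht
    · exact (hperm i).injOn
  set s := (cls σ x).card with hsdef
  have hs : ∀ p, (cls σ p).card = s := fun p => le_antisymm (hle _ _) (hle _ _)
  have hsub : ({x, y} : Finset Q) ⊆ cls σ x := by
    intro t ht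
    simp only [mem_insert, mem_singleton] at ht
    rcases ht with rfl | rfl
    · simp
    · simpa using σ.symm hxy
  have hs2 : 2 ≤ s := by
    have := card_le_card hsub
    rwa [card_pair hxyne] at this
  set m := Fintype.card (Quotient σ) with hm
  have hm2 : 2 ≤ m := by
    rw [hm, Nat.succ_le_iff, Fintype.one_lt_card_iff]
    exact ⟨Quotient.mk σ p1, Quotient.mk σ q1, fun h => hne2 (Quotient.exact h)⟩
  have hfib : ∀ K : Quotient σ, (univ.filter fun t => Quotient.mk σ t = K) = cls σ K.out := by
    intro K
    ext t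
    simp only [mem_filter, mem_univ, true_and, mem_cls]
    constructor
    · rintro rfl; exact σ.symm (Quotient.mk_out t)
    · intro h; rw [← Quotient.out_eq K]; exact Quotient.sound h
  have hn : Fintype.card Q = m * s := by
    rw [← card_univ, card_eq_sum_card_fiberwise (f := Quotient.mk σ) (t := univ)
      (fun _ _ => mem_univ _)]
    simp [hfib, hs, hm]
  -- phase 1
  obtain ⟨v1, x1, hv1, hv1'⟩ := extend_all δ σ hσ s hs w _ c hc hL hunif ⟨z, hz⟩ (s - 2) {x, y} x
    hsub ⟨x, by simp⟩ (by rw [card_pair hxyne]; omega)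
  -- phase 2
  let δ' : Quotient σ → A → Quotient σ := fun K b =>
    Quotient.map' (fun t => δ t b) (fun p q h => hσ p q b h) K
  have hact : ∀ (u : List A) (t : Q), act δ' (Quotient.mk σ t) u = Quotient.mk σ (act δ t u) := by
    intro u
    induction u with
    | nil => intro t; rfl
    | cons b u ih => intro t; exact ih (δ t b)
  have hcardtop : Fintype.card (Quotient (⊤ : Setoid (Quotient σ))) = 1 := by
    rw [Fintype.card_eq_one_iff]
    refine ⟨Quotient.mk _ (Quotient.mk σ x), fun K => ?_⟩
    induction K using Quotient.inductionOn with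
    | h K => exact Quotient.sound trivial
  have hclstop : ∀ K : Quotient σ, cls (⊤ : Setoid (Quotient σ)) K = univ := by
    intro K; ext K'; simp
  obtain ⟨v2, x2, hv2, hv2'⟩ := extend_all δ' (⊤ : Setoid (Quotient σ)) (fun _ _ _ _ => trivial) m
    (fun K => by rw [hclstop, card_univ]) w _ (s * c) (by positivity) hL
    (by
      intro K K'
      induction K using Quotient.inductionOn with
      | h p =>
        rw [card_eq_sum_card_fiberwise (f := fun i => act δ p (w i)) (t := cls σ K'.out)]
        · rw [sum_congr rfl (g := fun _ => c)]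
          · simp [hs]
          · intro q hq
            rw [← hunif p q, filter_filter]
            congr 1
            ext i
            simp only [mem_filter, mem_univ, true_and, hact, and_iff_right_iff_imp]
            intro h
            rw [h, ← hfib] at *
            exact (mem_filter.mp hq).2
        · intro i hi
          simp only [coe_filter, mem_univ, true_and, Set.mem_ofPred_eq, hact] at hi
          rw [mem_coe, ← hfib]
          simpa using hi)
    ⟨z, fun K K' => by
      induction K using Quotient.inductionOn with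
      | h p =>
        induction K' using Quotient.inductionOn with
        | h q => rw [hact, hact, hz p q]⟩
    (m - 1) {Quotient.mk σ x1} (Quotient.mk σ x1) (by simp [hclstop]) ⟨_, mem_singleton_self _⟩
    (by rw [card_singleton]; omega)
  refine ⟨v2 ++ v1 ++ [a], ?_, ?_⟩
  · have key : ∀ t, act δ t (v2 ++ v1 ++ [a]) = δ x a := by
      intro t
      have h1 := hv2' (Quotient.mk σ t) (by simp [hclstop])
      rw [hact, mem_singleton] at h1
      have h2 := hv1' (act δ t v2) ((mem_cls _ _ _).mpr (Quotient.exact h1))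
      rw [act_append, act_append]
      simp only [mem_insert, mem_singleton] at h2
      rcases h2 with h2 | h2 <;> simp [h2, hmerge]
    intro p q
    rw [key, key]
  · rw [hcardtop] at hv2
    have := final_ineq m s hm2 hs2
    simp only [List.length_append, List.length_singleton]
    rw [← hm, hn] at hv1 hv2
    rw [hn]
    omega

end Pool.Agent.MP_aef39a_lc

end
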